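import Pool.Agent.Helper60.BO.StP

/-!
Round theorem of THEOREM K: as RTP, with additional arbitrary rows (no column condition) whose error
is a large factor times their norm.
-/

namespace Pool.Agent.Helper98.BK

open Pool.Agent.Helper50.BO Pool.Agent.Helper60.BO

/-- RTK: RTP with additional arbitrary rows `r`. -/
def RTK (C : ℝ) : Prop := ∀ (V J I : Type) [Fintype V] [Fintype J] [Fintype I] (c : J → V → ℝ)
  (r : I → V → ℝ) (z : V → ℝ) (B N τ : ℝ), 1 ≤ τ → τ ≤ B →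
  (Fintype.card V : ℝ) + Fintype.card J + Fintype.card I + 3 ≤ N → (∀ j i, c j i ^ 2 ≤ 1) →
  (∀ i, ∑ j, c j i ^ 2 ≤ τ) → (∀ j, ∑ i, c j i ^ 2 ≤ B) → (∀ i, |z i| ≤ 1) →
  ∃ y : V → ℝ, (∀ i, |y i| = 1) ∧ (∀ j, |∑ i, c j i * (y i - z i)| ≤ C * (√τ + gs (LL B N))) ∧
    ∀ k, |∑ i, r k i * (y i - z i)| ≤ Real.exp (C * LL B N) * √(∑ i, r k i ^ 2)

end Pool.Agent.Helper98.BK
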