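import Pool.Agent.Helper50.BO.St

/-!
Pieces of ST (structure of the partial rounding), THEOREM O, MP_e8ee11.
-/

namespace Pool.Agent.Helper98.BO

open Pool.Agent.Helper50.BO

/-- adjacency at the threshold `α`: a row with two entries of square above `α` -/
def Ad {V J : Type} (c : J → V → ℝ) (α : ℝ) (u v : V) : Prop := ∃ j, α < c j u ^ 2 ∧ α < c j v ^ 2

/-- independent set of a relation -/
def Ind {V : Type} (R : V → V → Prop) (A : Finset V) : Prop :=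
  ∀ a ∈ A, ∀ b ∈ A, a ≠ b → ¬ R a b

/-- STcount: clusters of `Rs` inside `F` are small if `F` contains no member of a fixed family of
`Rw`-independent sets with at least `k + 1` elements. -/
def STcount : Prop := ∀ (V : Type) [Fintype V] (Rw Rs : V → V → Prop) (dw ds k : ℕ),
  (∀ a b, Rw a b → Rw b a) → (∀ a b, Rs a b → Rs b a) → (∀ a b, Rw a b → Rs a b) →
  (∀ a, Set.ncard {b | Rw a b} ≤ dw) → (∀ a, Set.ncard {b | Rs a b} ≤ ds) →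
  ∃ W : Finset (Finset V), W.card ≤ Fintype.card V * ((1 + ds) ^ 3) ^ (2 * k) ∧
    (∀ T ∈ W, k + 1 ≤ T.card ∧ Ind Rw T) ∧
    ∀ F : Set V, (∀ T ∈ W, ∃ u ∈ T, u ∉ F) →
      ∃ g : V → V, (∀ u u', u ∈ F → u' ∈ F → Rs u u' → g u = g u') ∧
        ∀ v, Set.ncard {u | u ∈ F ∧ g u = v} ≤ (1 + dw) * k

/-- STgreedy: a heavy independent set. -/
def STgreedy : Prop := ∀ (V : Type) [Fintype V] (R : V → V → Prop) (d : ℕ) (w : V → ℝ)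
  (F : Finset V), (∀ a b, R a b → R b a) → (∀ a, Set.ncard {b | R a b} ≤ d) → (∀ v, 0 ≤ w v) →
  ∃ A ⊆ F, Ind R A ∧ ∑ v ∈ F, w v ≤ (d + 1) * ∑ v ∈ A, w v

/-- STdeg: degree of the adjacency. -/
def STdeg : Prop := ∀ (V J : Type) [Fintype V] [Fintype J] (c : J → V → ℝ) (α B : ℝ), 0 < α →
  0 ≤ B → (∀ i, ∑ j, c j i ^ 2 ≤ 1) → (∀ j, ∑ i, c j i ^ 2 ≤ B) →
  ∀ u, (Set.ncard {v | Ad c α u v} : ℝ) ≤ B / α ^ 2

/-- STtests: the walk with the four families of tests. -/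
def STtests : Prop := ∀ (V J : Type) [Fintype V] [Fintype J] (c : J → V → ℝ) (z : V → ℝ)
  (B N κ aw al : ℝ) (K k : ℕ) (W : Finset (Finset V)),
  0 ≤ B → (Fintype.card V : ℝ) + Fintype.card J + 3 ≤ N →
  (∀ i, ∑ j, c j i ^ 2 ≤ 1) → (∀ j, ∑ i, c j i ^ 2 ≤ B) → (∀ i, |z i| ≤ 1) →
  14 ≤ κ → 0 < al → al ≤ aw → aw * Real.log (8 * N) ≤ 1 →
  Real.log (8 * N) + 8 ≤ 2 ^ (K + 1) →
  (∀ T ∈ W, k + 1 ≤ T.card ∧ Ind (Ad c aw) T) →
  W.card * Real.exp (-((κ / 2 - 6) * (k + 1))) ≤ 1 / 8 →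
  2 * B / al * Real.exp (6 - κ / 2) ≤ 1 →
  ∃ y : V → ℝ, (∀ i, |y i| ≤ 1) ∧
    (∀ j, |∑ i, c j i * (y i - z i)| ≤ 32 * (√κ * (K + 1))) ∧
    (∀ T ∈ W, ∃ u ∈ T, |y u| = 1) ∧
    ∀ r, ∀ A : Finset V, (∀ u ∈ A, |y u| < 1) → Ind (Ad c aw) A →
      ∑ u ∈ A, (if c r u ^ 2 ≤ al then c r u ^ 2 else 0) ≤ al * Real.log (64 * N)

end Pool.Agent.Helper98.BO
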