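import Pool.Agent.Helper98.BO.STst

namespace Pool.Agent.Helper98.BO

open Pool.Agent.Helper50.BO Real

theorem Ad_symm {V J : Type} (c : J → V → ℝ) (α : ℝ) (u v : V) (h : Ad c α u v) : Ad c α v u := by
  obtain ⟨j, h1, h2⟩ := h
  exact ⟨j, h2, h1⟩

theorem Ad_mono {V J : Type} (c : J → V → ℝ) {α β : ℝ} (h : α ≤ β) (u v : V) (h' : Ad c β u v) :
    Ad c α u v := by
  obtain ⟨j, h1, h2⟩ := h'
  exact ⟨j, lt_of_le_of_lt h h1, lt_of_le_of_lt h h2⟩

/-- numeric facts about `N` -/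
theorem num_N {N : ℝ} (hN : 3 ≤ N) :
    3 ≤ log (8 * N) ∧ 0 ≤ log (log N) ∧ log (log (8 * N)) ≤ 11 / 10 + log (log N) ∧
      log (64 * N) ≤ 2 * log (8 * N) := by
  have h1 : (1.0986 : ℝ) ≤ log 3 := by
    have := Real.log_three_gt_d9 
    linarith
  have h2 : log 3 ≤ log N := log_le_log (by norm_num) hN
  have h8 : log 8 = 3 * log 2 := by
    rw [show (8 : ℝ) = 2 ^ 3 by norm_num, log_pow]; norm_num
  have h3 := Real.log_two_lt_d9
  have h3' := Real.log_two_gt_d9
  have h4 : log (8 * N) = log 8 + log N := log_mul (by norm_num) (by linarith)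
  have h5 : log (64 * N) = log 8 + log (8 * N) := by
    rw [show (64 : ℝ) * N = 8 * (8 * N) by ring]
    exact log_mul (by norm_num) (by linarith)
  refine ⟨by linarith, log_nonneg (by linarith), ?_, by linarith⟩
  have h6 : log (8 * N) ≤ 3 * log N := by linarith
  have h7 : log (log (8 * N)) ≤ log (3 * log N) := log_le_log (by linarith) h6
  have h9 : log (3 * log N) = log 3 + log (log N) := log_mul (by norm_num) (by linarith)
  have h8 : log 3 ≤ 11 / 10 := by
    have := Real.log_three_lt_d9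
    linarith
  linarith

/-- parameters -/
structure Par (B N P l8 al D κ : ℝ) (K k : ℕ) : Prop where
  hl8 : l8 = log (8 * N)
  hP : P = 1 + B * l8 ^ 2
  hal : al = 1 / (32 * P ^ 2 * l8 ^ 3)
  hD : D = 1 + B / al ^ 2
  hκ : κ = 14 + 12 * log D
  hk : k = ⌈l8⌉₊
  hK1 : (2 : ℝ) ^ K ≤ l8 + 8
  hK2 : l8 + 8 < 2 ^ (K + 1)

theorem num_par {B N P l8 al D κ : ℝ} {K k : ℕ} (hp : Par B N P l8 al D κ K k) (hB : 1 ≤ B)
    (hN : 3 ≤ N) :
    3 ≤ l8 ∧ 1 ≤ P ∧ 0 < al ∧ al ≤ 1 / l8 ∧ al ≤ 1 ∧ 1 ≤ D ∧ 14 ≤ κ ∧ l8 ≤ k ∧ (k : ℝ) ≤ 2 * l8 ∧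
      log (64 * N) ≤ 2 * l8 ∧ 2 * B / al * exp (6 - κ / 2) ≤ 1 ∧
      κ ≤ 400 * LL B N ∧ (K + 1 : ℝ) ≤ 7 * LL B N ∧ log (64 * P ^ 3 * l8 ^ 4) ≤ 21 * LL B N := by
  obtain ⟨hl8, hP, hal, hD, hκ, hk, hK1, hK2⟩ := hp
  obtain ⟨n1, n2, n3, n4⟩ := num_N hN
  rw [← hl8] at n1 n3 n4
  have hB0 : 0 < B := by linarith
  have hl0 : 0 < l8 := by linarith
  have hlogB : 0 ≤ log B := log_nonneg hB
  have hlogl : 0 ≤ log l8 := log_nonneg (by linarith)
  have hLL : LL B N = 1 + log B + log (log N) := rfl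
  have hLL1 : 1 ≤ LL B N := by rw [hLL]; linarith
  have hl8L : log l8 ≤ 11 / 10 * LL B N := by rw [hLL]; linarith
  have hBL : log B ≤ LL B N := by rw [hLL]; linarith
  have hP1 : 1 ≤ P := by rw [hP]; have := mul_pos hB0 (pow_pos hl0 2); linarith
  have hP0 : 0 < P := by linarith
  have hal0 : 0 < al := by rw [hal]; positivity
  have hden : l8 ≤ 32 * P ^ 2 * l8 ^ 3 := by
    have e1 : 1 ≤ P ^ 2 := one_le_pow₀ hP1
    have e2 : 1 ≤ l8 ^ 2 := one_le_pow₀ (by linarith)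
    have e3 : 1 ≤ P ^ 2 * l8 ^ 2 := by nlinarith
    calc l8 = 1 * l8 := (one_mul _).symm
      _ ≤ (32 * (P ^ 2 * l8 ^ 2)) * l8 := by
          apply mul_le_mul_of_nonneg_right _ hl0.le
          linarith
      _ = _ := by ring
  have hal1 : al ≤ 1 / l8 := by
    rw [hal]
    exact one_div_le_one_div_of_le hl0 hden
  have hl1 : 1 / l8 ≤ 1 := by
    rw [div_le_one hl0]; linarith
  have hal2 : al ≤ 1 := hal1.trans hl1
  have hD1 : 1 ≤ D := by rw [hD]; have := div_pos hB0 (pow_pos hal0 2); linarith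
  have hD0 : 0 < D := by linarith
  have hlogD : 0 ≤ log D := log_nonneg hD1
  have hκ14 : 14 ≤ κ := by rw [hκ]; linarith
  have hk1 : l8 ≤ k := by rw [hk]; exact Nat.le_ceil _
  have hk2 : (k : ℝ) ≤ 2 * l8 := by
    have := Nat.ceil_lt_add_one hl0.le
    rw [← hk] at this
    linarith
  have hl2 := Real.log_two_lt_d9
  have hl2' := Real.log_two_gt_d9
  refine ⟨n1, hP1, hal0, hal1, hal2, hD1, hκ14, hk1, hk2, n4, ?_, ?_, ?_, ?_⟩
  · have e1 : 6 - κ / 2 = -(1 + 6 * log D) := by rw [hκ]; ring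
    rw [e1, exp_neg, ← div_eq_mul_inv, div_le_one (exp_pos _), exp_add]
    have e2 : exp (6 * log D) = D ^ 6 := by
      rw [show (6 : ℝ) * log D = ((6 : ℕ) : ℝ) * log D by norm_num, exp_nat_mul, exp_log hD0]
    have e3 : 2 ≤ exp 1 := by have := Real.exp_one_gt_d9; linarith
    have e4 : D ≤ D ^ 6 := le_self_pow₀ hD1 (by norm_num)
    have e5 : B / al ≤ D := by
      have : B / al ≤ B / al ^ 2 := by
        apply div_le_div_of_nonneg_left hB0.le (by positivity)
        calc al ^ 2 = al * al := by ring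
          _ ≤ 1 * al := mul_le_mul_of_nonneg_right hal2 hal0.le
          _ = al := one_mul _
      rw [hD]; linarith
    rw [e2]
    calc 2 * B / al = 2 * (B / al) := by ring
      _ ≤ exp 1 * D ^ 6 := mul_le_mul e3 (e5.trans e4) (by positivity) (by positivity)
  · have e1 : P ≤ 2 * B * l8 ^ 2 := by
      have : 1 ≤ B * l8 ^ 2 := by
        have := one_le_pow₀ (n := 2) (show 1 ≤ l8 by linarith)
        nlinarith
      rw [hP]; linarith
    have e2 : D ≤ 2 ^ 15 * B ^ 5 * l8 ^ 14 := by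
      have f1 : B / al ^ 2 = B * (2 ^ 10 * P ^ 4 * l8 ^ 6) := by
        rw [hal]; field_simp; ring
      have f2 : P ^ 4 ≤ (2 * B * l8 ^ 2) ^ 4 := pow_le_pow_left₀ hP0.le e1 4
      have f3 : B * (2 ^ 10 * P ^ 4 * l8 ^ 6) ≤ 2 ^ 14 * B ^ 5 * l8 ^ 14 := by
        calc B * (2 ^ 10 * P ^ 4 * l8 ^ 6) ≤ B * (2 ^ 10 * (2 * B * l8 ^ 2) ^ 4 * l8 ^ 6) := by
              gcongr
          _ = _ := by ring
      have f4 : 1 ≤ 2 ^ 14 * B ^ 5 * l8 ^ 14 := by
        have g1 : 1 ≤ B ^ 5 := one_le_pow₀ hB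
        have g2 : 1 ≤ l8 ^ 14 := one_le_pow₀ (by linarith)
        have g3 : 1 ≤ B ^ 5 * l8 ^ 14 := by nlinarith
        linarith
      rw [hD, f1]; linarith
    have e3 : log D ≤ 15 * log 2 + 5 * log B + 14 * log l8 := by
      have f := log_le_log hD0 e2
      rw [log_mul (by positivity) (by positivity), log_mul (by positivity) (by positivity),
        log_pow, log_pow, log_pow] at f
      push_cast at f
      linarith
    rw [hκ]; linarith
  · have e1 : (2 : ℝ) ^ K ≤ 2 ^ 2 * l8 := by linarith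
    have e2 : K * log 2 ≤ 2 * log 2 + log l8 := by
      have f := log_le_log (by positivity) e1
      rw [log_pow, log_mul (by norm_num) (by linarith), log_pow] at f
      push_cast at f
      exact f
    have e3 : (K : ℝ) * (6931 / 10000) ≤ 2 * (6932 / 10000) + log l8 := by
      have : (K : ℝ) * (6931 / 10000) ≤ K * log 2 :=
        mul_le_mul_of_nonneg_left (by linarith) (Nat.cast_nonneg _)
      linarith
    linarith
  · have e1 : P ≤ 2 * B * l8 ^ 2 := by
      have : 1 ≤ B * l8 ^ 2 := by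
        have := one_le_pow₀ (n := 2) (show 1 ≤ l8 by linarith)
        nlinarith
      rw [hP]; linarith
    have f2 : P ^ 3 ≤ (2 * B * l8 ^ 2) ^ 3 := pow_le_pow_left₀ hP0.le e1 3
    have e2 : 64 * P ^ 3 * l8 ^ 4 ≤ 2 ^ 9 * B ^ 3 * l8 ^ 10 := by
      calc 64 * P ^ 3 * l8 ^ 4 ≤ 64 * (2 * B * l8 ^ 2) ^ 3 * l8 ^ 4 := by gcongr
        _ = _ := by ring
    have f := log_le_log (by positivity) e2
    have f' : log (2 ^ 9 * B ^ 3 * l8 ^ 10) = 9 * log 2 + 3 * log B + 10 * log l8 := by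
      rw [log_mul (by positivity) (by positivity), log_mul (by positivity) (by positivity),
        log_pow, log_pow, log_pow]
      push_cast
      ring
    rw [f'] at f
    linarith

theorem st_of (h1 : STcount) (h2 : STgreedy) (h3 : STdeg) (h4 : STtests) : ST 5000 := by
  classical
  intro V J _ _ c z B N hB hN hcol hrow hz
  have hB0 : 0 ≤ B := by linarith
  have hN3 : 3 ≤ N := by
    have a1 : (0 : ℝ) ≤ Fintype.card V := Nat.cast_nonneg _
    have a2 : (0 : ℝ) ≤ Fintype.card J := Nat.cast_nonneg _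
    linarith
  have hVN : (Fintype.card V : ℝ) ≤ N := by
    have a2 : (0 : ℝ) ≤ Fintype.card J := Nat.cast_nonneg _
    linarith
  set l8 := log (8 * N) with hl8
  have hl83 : 3 ≤ l8 := (num_N hN3).1
  set P := 1 + B * l8 ^ 2 with hP
  set al := 1 / (32 * P ^ 2 * l8 ^ 3) with hal
  set D := 1 + B / al ^ 2 with hD
  set κ := 14 + 12 * log D with hκ
  set k := ⌈l8⌉₊ with hk
  obtain ⟨K, hK1, hK2⟩ := exists_nat_pow_near (x := l8 + 8) (y := 2) (by linarith) (by norm_num)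
  have hpar : Par B N P l8 al D κ K k := ⟨hl8, hP, hal, hD, hκ, hk, hK1, hK2⟩
  obtain ⟨-, hP1, hal0, hal1, hal2, hD1, hκ14, hk1, hk2, h64, hexp, hκL, hKL, hlog⟩ :=
    num_par hpar hB hN3
  have hl0 : 0 < l8 := by linarith
  have haw0 : 0 < 1 / l8 := by positivity
  set dw := ⌊B / (1 / l8) ^ 2⌋₊ with hdw
  set ds := ⌊B / al ^ 2⌋₊ with hds
  have hdwP : (1 + dw : ℝ) ≤ P := by
    have a1 : (dw : ℝ) ≤ B / (1 / l8) ^ 2 := Nat.floor_le (by positivity)
    have a2 : B / (1 / l8) ^ 2 = B * l8 ^ 2 := by field_simp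
    rw [hP]; linarith
  have hdsD : (1 + ds : ℝ) ≤ D := by
    have a1 : (ds : ℝ) ≤ B / al ^ 2 := Nat.floor_le (by positivity)
    rw [hD]; linarith
  have hd1 : ∀ a, Set.ncard {b | Ad c (1 / l8) a b} ≤ dw := fun a =>
    Nat.le_floor (h3 V J c (1 / l8) B haw0 hB0 hcol hrow a)
  have hd2 : ∀ a, Set.ncard {b | Ad c al a b} ≤ ds := fun a =>
    Nat.le_floor (h3 V J c al B hal0 hB0 hcol hrow a)
  obtain ⟨W, hW1, hW2, hW3⟩ := h1 V (Ad c (1 / l8)) (Ad c al) dw ds k (Ad_symm c _) (Ad_symm c _)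
    (Ad_mono c hal1) hd1 hd2
  have hWexp : (W.card : ℝ) * exp (-((κ / 2 - 6) * (k + 1))) ≤ 1 / 8 := by
    have hD0 : 0 < D := by linarith
    have a1 : (W.card : ℝ) ≤ N * D ^ (6 * k) := by
      have b1 : (W.card : ℝ) ≤ Fintype.card V * ((1 + ds : ℝ) ^ 3) ^ (2 * k) := by
        exact_mod_cast hW1
      refine b1.trans ?_
      rw [← pow_mul, show 3 * (2 * k) = 6 * k by ring]
      have b2 : (1 + ds : ℝ) ^ (6 * k) ≤ D ^ (6 * k) := pow_le_pow_left₀ (by positivity) hdsD _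
      exact mul_le_mul hVN b2 (by positivity) (by linarith)
    have a2 : exp (-((κ / 2 - 6) * (k + 1))) ≤ 1 / (8 * N) / D ^ (6 * k) := by
      have b1 : exp (-((κ / 2 - 6) * (k + 1))) ≤ exp (-(l8 + (6 * k) * log D)) := by
        apply exp_le_exp.2
        have c1 : κ / 2 - 6 = 1 + 6 * log D := by rw [hκ]; ring
        have c2 : 0 ≤ log D := log_nonneg hD1
        rw [c1]
        nlinarith
      refine b1.trans (le_of_eq ?_)
      rw [exp_neg, exp_add, hl8, exp_log (by linarith)]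
      have b2 : exp (6 * k * log D) = D ^ (6 * k) := by
        rw [show (6 : ℝ) * k * log D = ((6 * k : ℕ) : ℝ) * log D by push_cast; ring, exp_nat_mul,
          exp_log hD0]
      rw [b2]
      field_simp
    calc (W.card : ℝ) * exp (-((κ / 2 - 6) * (k + 1)))
        ≤ N * D ^ (6 * k) * (1 / (8 * N) / D ^ (6 * k)) :=
          mul_le_mul a1 a2 (exp_pos _).le (by positivity)
      _ = 1 / 8 := by field_simp
  obtain ⟨y, y1, y2, y3, y4⟩ := h4 V J c z B N κ (1 / l8) al K k W hB0 hN hcol hrow hz hκ14 hal0 hal1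
    (le_of_eq (by rw [← hl8]; field_simp)) (by rw [← hl8]; exact hK2.le) hW2 hWexp hexp
  obtain ⟨g, g1, g2⟩ := hW3 {u | |y u| < 1} (fun T hT => by
    obtain ⟨u, hu, hu1⟩ := y3 T hT
    exact ⟨u, hu, fun hh => by
      have hh' : |y u| < 1 := hh
      rw [hu1] at hh'
      exact lt_irrefl _ hh'⟩)
  have hk0 : 1 ≤ k := by
    have : (1 : ℝ) ≤ k := by linarith
    exact_mod_cast this
  have hl64 : 0 ≤ log (64 * N) := log_nonneg (by linarith)
  refine ⟨y, g, al, (1 + dw) * (al * log (64 * N)), (1 + dw) * k, hal0, hal2, by positivity,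
    Nat.mul_pos (by omega) hk0, y1, fun j => (y2 j).trans ?_, fun v => g2 v,
    fun j u u' hu hu' e1 e2 => g1 u u' hu hu' ⟨j, e1, e2⟩, fun j => ?_, ?_, ?_⟩
  · have a1 : √κ ≤ 20 * √(LL B N) := by
      rw [show (20 : ℝ) = √400 by
        rw [show (400 : ℝ) = 20 ^ 2 by norm_num, Real.sqrt_sq (by norm_num)],
        ← Real.sqrt_mul (by norm_num)]
      exact Real.sqrt_le_sqrt hκL
    have a2 : √κ * (K + 1) ≤ (20 * √(LL B N)) * (7 * LL B N) :=
      mul_le_mul a1 hKL (by positivity) (by positivity)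
    have a3 : 0 ≤ LL B N * √(LL B N) := by
      have : 0 ≤ LL B N := by
        have : (0 : ℝ) ≤ K + 1 := by positivity
        linarith
      positivity
    calc 32 * (√κ * (K + 1)) ≤ 32 * ((20 * √(LL B N)) * (7 * LL B N)) := by linarith
      _ = 4480 * (LL B N * √(LL B N)) := by ring
      _ ≤ 5000 * (LL B N * √(LL B N)) := by linarith
  · obtain ⟨A, hA1, hA2, hA3⟩ := h2 V (Ad c (1 / l8)) dw
      (fun u => if c j u ^ 2 ≤ al then c j u ^ 2 else 0) (Finset.univ.filter fun u => |y u| < 1)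
      (Ad_symm c _) hd1 (fun v => by split_ifs; exacts [sq_nonneg _, le_rfl])
    have a1 := y4 j A (fun u hu => (Finset.mem_filter.1 (hA1 hu)).2) hA2
    have a2 : ∑ u, (if |y u| < 1 ∧ c j u ^ 2 ≤ al then c j u ^ 2 else 0)
        = ∑ v ∈ Finset.univ.filter (fun u => |y u| < 1),
          (if c j v ^ 2 ≤ al then c j v ^ 2 else 0) := by
      rw [Finset.sum_filter]
      refine Finset.sum_congr rfl fun u _ => ?_
      by_cases hu : |y u| < 1
      · simp [hu]
      · simp [hu]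
    rw [a2]
    calc _ ≤ _ := hA3
      _ ≤ (dw + 1) * (al * log (64 * N)) := by
          apply mul_le_mul_of_nonneg_left a1; positivity
      _ = _ := by ring
  · push_cast
    have hal' : al * (32 * P ^ 2 * l8 ^ 3) = 1 := by
      rw [hal]; field_simp
    calc 8 * ((1 + dw : ℝ) * k) * ((1 + dw) * (al * log (64 * N))) * l8
        ≤ 8 * (P * (2 * l8)) * (P * (al * (2 * l8))) * l8 := by gcongr
      _ = al * (32 * P ^ 2 * l8 ^ 3) := by ring
      _ = 1 := hal'
  · refine le_trans (log_le_log (by positivity) ?_) (hlog.trans ?_)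
    · push_cast
      rw [hal, div_div_eq_mul_div, div_one]
      calc (1 + dw : ℝ) * k * (32 * P ^ 2 * l8 ^ 3) ≤ P * (2 * l8) * (32 * P ^ 2 * l8 ^ 3) := by
            gcongr
        _ = 64 * P ^ 3 * l8 ^ 4 := by ring
    · have : 0 ≤ LL B N := by
        have : (0 : ℝ) ≤ K + 1 := by positivity
        linarith
      linarith

end Pool.Agent.Helper98.BO
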